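import Mathlib

namespace Pool.Agent.Results.MP_75f2a2_co.AllRadii

open Finset

/-- The closed axis-parallel cube of side length `1` in `ℝ³` with lower corner `a`. -/
def cube (a : Fin 3 → ℝ) : Set (Fin 3 → ℝ) :=
  Set.Icc a (fun c => a c + 1)

/-- The intersection graph of the family of unit cubes with lower corners `p v`. -/
def cubeGraph {V : Type*} (p : V → Fin 3 → ℝ) : SimpleGraph V where
  Adj u v := u ≠ v ∧ (cube (p u) ∩ cube (p v)).Nonempty
  symm := ⟨fun u v h => ⟨h.1.symm, by rw [Set.inter_comm]; exact h.2⟩⟩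
  loopless := ⟨fun u h => h.1 rfl⟩

open Classical in
/-- The ball `N^r[v]`: all vertices at graph distance at most `r` from `v`. -/
noncomputable def ball {V : Type*} [Fintype V] (G : SimpleGraph V) (r : ℕ) (v : V) :
    Finset V :=
  Finset.univ.filter (fun u => G.edist v u ≤ (r : ℕ∞))

open Classical in
/-- `VC_r(G)`: the VC-dimension of the system of all balls of radius `r`. -/
noncomputable def vcBall {V : Type*} [Fintype V] (G : SimpleGraph V) (r : ℕ) : ℕ :=
  (Finset.univ.image (ball G r)).vcDim

/-! ### Ramsey's theorem for pairs and for products -/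

theorem endHom (K : Type*) [Fintype K] [DecidableEq K] (M : ℕ) :
    ∃ N : ℕ, ∀ (χ : ℕ → ℕ → K) (S : Finset ℕ), N ≤ S.card →
      ∃ a : Fin M → ℕ, StrictMono a ∧ (∀ i, a i ∈ S) ∧
        ∃ κ : Fin M → K, ∀ i j, i < j → χ (a i) (a j) = κ i := by
  induction M with
  | zero =>
    exact ⟨0, fun χ S _ => ⟨Fin.elim0, fun i => i.elim0, fun i => i.elim0, Fin.elim0,
      fun i => i.elim0⟩⟩
  | succ M ih =>
    obtain ⟨N, hN⟩ := ih
    refine ⟨Fintype.card K * N + 1, fun χ S hS => ?_⟩
    have hne : S.Nonempty := by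
      rw [← Finset.card_pos]; omega
    have hx := S.min'_mem hne
    set x := S.min' hne with hxdef
    have hcard : (Finset.univ : Finset K).card * N ≤ (S.erase x).card := by
      rw [Finset.card_erase_of_mem hx, Finset.card_univ]; omega
    obtain ⟨k, -, hk⟩ := Finset.exists_le_card_fiber_of_mul_le_card_of_maps_to
      (s := S.erase x) (t := (Finset.univ : Finset K)) (f := fun z => χ x z)
      (fun z _ => Finset.mem_univ _) ⟨χ 0 0, Finset.mem_univ _⟩ hcard
    obtain ⟨a, ha, haS, κ, hκ⟩ := hN χ _ hk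
    have haS' : ∀ i, a i ∈ S ∧ x < a i ∧ χ x (a i) = k := by
      intro i
      have h := haS i
      rw [Finset.mem_filter, Finset.mem_erase] at h
      refine ⟨h.1.2, ?_, h.2⟩
      exact lt_of_le_of_ne (S.min'_le _ h.1.2) (Ne.symm h.1.1)
    refine ⟨Fin.cons x a, ?_, ?_, Fin.cons k κ, ?_⟩
    · intro i j hij
      induction i using Fin.cases with
      | zero =>
        induction j using Fin.cases with
        | zero => exact absurd hij (lt_irrefl _)
        | succ j => simpa using (haS' j).2.1
      | succ i =>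
        induction j using Fin.cases with
        | zero => exact absurd hij (Fin.not_lt_zero _)
        | succ j => simpa using ha (Fin.succ_lt_succ_iff.mp hij)
    · intro i
      induction i using Fin.cases with
      | zero => simpa using hx
      | succ i => simpa using (haS' i).1
    · intro i j hij
      induction i using Fin.cases with
      | zero =>
        induction j using Fin.cases with
        | zero => exact absurd hij (lt_irrefl _)
        | succ j => simpa using (haS' j).2.2
      | succ i =>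
        induction j using Fin.cases with
        | zero => exact absurd hij (Fin.not_lt_zero _)
        | succ j => simpa using hκ i j (Fin.succ_lt_succ_iff.mp hij)

theorem ramseyPairs (K : Type*) [Fintype K] [DecidableEq K] (m : ℕ) :
    ∃ N : ℕ, ∀ χ : ℕ → ℕ → K, ∃ a : Fin m → ℕ, StrictMono a ∧ (∀ i, a i < N) ∧
      ∃ κ : K, ∀ i j, i < j → χ (a i) (a j) = κ := by
  obtain ⟨N, hN⟩ := endHom K (Fintype.card K * m)
  refine ⟨N, fun χ => ?_⟩
  obtain ⟨a, ha, haS, κ, hκ⟩ := hN χ (Finset.range N) (by simp)
  obtain ⟨k, -, hk⟩ := Finset.exists_le_card_fiber_of_mul_le_card_of_maps_to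
    (s := (Finset.univ : Finset (Fin (Fintype.card K * m)))) (t := (Finset.univ : Finset K))
    (f := κ) (n := m) (fun z _ => Finset.mem_univ _) ⟨χ 0 0, Finset.mem_univ _⟩ (by simp)
  let e := Finset.orderEmbOfCardLe _ hk
  have he : ∀ i, κ (e i) = k := by
    intro i
    have := Finset.orderEmbOfCardLe_mem _ hk i
    simpa using this
  refine ⟨fun i => a (e i), fun i j hij => ha (e.strictMono hij), fun i => ?_, k, ?_⟩
  · exact Finset.mem_range.mp (haS _)
  · intro i j hij
    rw [hκ _ _ (e.strictMono hij), he]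

theorem ramseyProd (K : Type*) [Fintype K] [DecidableEq K] (m : ℕ) :
    ∃ N : ℕ, ∀ χ : ℕ → ℕ → ℕ → ℕ → K, ∃ a b : Fin m → ℕ, StrictMono a ∧ StrictMono b ∧
      (∀ i, a i < N) ∧ (∀ i, b i < N) ∧
      ∃ κ : K, ∀ i j k l, i < j → k < l → χ (a i) (a j) (b k) (b l) = κ := by
  obtain ⟨N₁, h₁⟩ := ramseyPairs K m
  obtain ⟨N₂, h₂⟩ := ramseyPairs (Fin N₁ → Fin N₁ → K) m
  refine ⟨max N₁ N₂, fun χ => ?_⟩
  obtain ⟨b, hb, hbN, κ', hκ'⟩ := h₂ (fun w w' => fun u u' => χ u u' w w')
  obtain ⟨a, ha, haN, κ, hκ⟩ := h₁ (fun u u' =>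
    if h : u < N₁ ∧ u' < N₁ then κ' ⟨u, h.1⟩ ⟨u', h.2⟩ else χ 0 0 0 0)
  refine ⟨a, b, ha, hb, fun i => lt_of_lt_of_le (haN i) (le_max_left _ _),
    fun i => lt_of_lt_of_le (hbN i) (le_max_right _ _), κ, ?_⟩
  intro i j k l hij hkl
  have e1 := hκ i j hij
  rw [dif_pos ⟨haN i, haN j⟩] at e1
  have e2 := congrFun (congrFun (hκ' k l hkl) ⟨a i, haN i⟩) ⟨a j, haN j⟩
  rw [← e1, ← e2]

/-! ### Leading indices on a four by four grid -/

/-- The strict order of `Fin 4` or its reverse. -/
def R (e : Bool) (x y : Fin 4) : Prop := if e = true then x < y else y < x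

theorem R_ne {e : Bool} {x y : Fin 4} (h : R e x y) : x ≠ y := by
  unfold R at h
  split at h
  · exact h.ne
  · exact h.ne'

theorem R_not {e : Bool} {x y : Fin 4} : R (!e) x y ↔ R e y x := by
  cases e <;> simp [R]

/-- `h` is strictly monotone in the first (`l = false`) or second (`l = true`) index,
whatever happens with the other index, as long as it changes. -/
def Lead (h : Fin 4 → Fin 4 → ℝ) (l e : Bool) : Prop :=
  ∀ u u' w w' : Fin 4, (if l = true then (R e w w' ∧ u ≠ u') else (R e u u' ∧ w ≠ w')) →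
    h u w < h u' w'

theorem lead_unique {h : Fin 4 → Fin 4 → ℝ} {l l' e e' : Bool} (h1 : Lead h l e)
    (h2 : Lead h l' e') : l = l' ∧ e = e' := by
  have a1 := h1 0 1 0 1
  have a2 := h1 0 1 1 0
  have a3 := h1 1 0 0 1
  have a4 := h1 1 0 1 0
  have b1 := h2 0 1 0 1
  have b2 := h2 0 1 1 0
  have b3 := h2 1 0 0 1
  have b4 := h2 1 0 1 0
  cases l <;> cases l' <;> cases e <;> cases e' <;> simp [R] at * <;> linarith

theorem lead_neg {h : Fin 4 → Fin 4 → ℝ} {l e : Bool} (h1 : Lead h l e) :
    Lead (fun u w => - h u w) l (!e) := by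
  intro u u' w w' hh
  have := h1 u' u w' w
  simp only [neg_lt_neg_iff]
  apply this
  split at hh
  · rename_i hl
    simp only [hl, if_true]
    exact ⟨R_not.mp hh.1, hh.2.symm⟩
  · rename_i hl
    simp only [hl]
    exact ⟨R_not.mp hh.1, hh.2.symm⟩

/-- The comparisons of `h` along the two diagonal directions do not depend on the place. -/
def Hom (h : Fin 4 → Fin 4 → ℝ) : Prop :=
  (∃ p : SignType, ∀ u u' w w' : Fin 4, u < u' → w < w' →
    SignType.sign (h u' w' - h u w) = p) ∧
  (∃ q : SignType, ∀ u u' w w' : Fin 4, u < u' → w < w' →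
    SignType.sign (h u' w - h u w') = q)

theorem hom_lead {h : Fin 4 → Fin 4 → ℝ} (hh : Hom h) {d1 d2 : Bool}
    (hs : ∀ u u' w w' : Fin 4, R d1 u u' → R d2 w w' → h u w < h u' w') :
    ∃ l e, Lead h l e := by
  obtain ⟨⟨p, hp⟩, ⟨q, hq⟩⟩ := hh
  -- both signs are nonzero
  have key : p ≠ 0 ∧ q ≠ 0 := by
    have n1 : p = 0 → q = 0 := by
      rintro rfl
      have e1 := sign_eq_zero_iff.mp (hp 1 2 0 1 (by decide) (by decide))
      have e2 := sign_eq_zero_iff.mp (hp 1 2 0 3 (by decide) (by decide))
      have e3 := sign_eq_zero_iff.mp (hp 1 2 2 3 (by decide) (by decide))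
      have := hq 1 2 1 2 (by decide) (by decide)
      rw [← this]
      apply sign_eq_zero_iff.mpr
      linarith
    have n2 : q = 0 → p = 0 := by
      rintro rfl
      have e1 := sign_eq_zero_iff.mp (hq 1 2 2 3 (by decide) (by decide))
      have e2 := sign_eq_zero_iff.mp (hq 1 2 1 3 (by decide) (by decide))
      have e3 := sign_eq_zero_iff.mp (hq 1 2 1 2 (by decide) (by decide))
      have e4 := sign_eq_zero_iff.mp (hq 0 1 1 2 (by decide) (by decide))
      have e5 := sign_eq_zero_iff.mp (hq 0 2 1 2 (by decide) (by decide))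
      have e6 := sign_eq_zero_iff.mp (hq 1 2 0 2 (by decide) (by decide))
      have e7 := sign_eq_zero_iff.mp (hq 0 2 0 2 (by decide) (by decide))
      have := hp 1 2 1 2 (by decide) (by decide)
      rw [← this]
      apply sign_eq_zero_iff.mpr
      linarith
    by_cases hd : d1 = d2
    · have hp0 : p ≠ 0 := by
        rintro rfl
        have e1 := sign_eq_zero_iff.mp (hp 0 1 0 1 (by decide) (by decide))
        subst hd
        cases d1
        · have := hs 1 0 1 0 (by simp [R]) (by simp [R])
          linarith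
        · have := hs 0 1 0 1 (by simp [R]) (by simp [R])
          linarith
      exact ⟨hp0, fun hq0 => hp0 (n2 hq0)⟩
    · have hq0 : q ≠ 0 := by
        rintro rfl
        have e1 := sign_eq_zero_iff.mp (hq 0 1 0 1 (by decide) (by decide))
        cases d1 <;> cases d2 <;> simp at hd
        · have := hs 1 0 0 1 (by simp [R]) (by simp [R])
          linarith
        · have := hs 0 1 1 0 (by simp [R]) (by simp [R])
          linarith
      exact ⟨fun hp0 => hq0 (n1 hp0), hq0⟩
  obtain ⟨hp0, hq0⟩ := key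
  have cp : p = 1 ∨ p = -1 := by
    rcases p with _ | _ | _ <;> simp_all
  have cq : q = 1 ∨ q = -1 := by
    rcases q with _ | _ | _ <;> simp_all
  rcases cp with rfl | rfl <;> rcases cq with rfl | rfl
  · refine ⟨false, true, ?_⟩
    intro u u' w w' hh
    simp only [R] at hh
    simp at hh
    rcases lt_or_gt_of_ne hh.2 with hw | hw
    · have := sign_eq_one_iff.mp (hp u u' w w' hh.1 hw); linarith
    · have := sign_eq_one_iff.mp (hq u u' w' w hh.1 hw); linarith
  · refine ⟨true, true, ?_⟩
    intro u u' w w' hh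
    simp only [R] at hh
    simp at hh
    rcases lt_or_gt_of_ne hh.2 with hw | hw
    · have := sign_eq_one_iff.mp (hp u u' w w' hw hh.1); linarith
    · have := sign_eq_neg_one_iff.mp (hq u' u w w' hw hh.1); linarith
  · refine ⟨true, false, ?_⟩
    intro u u' w w' hh
    simp only [R] at hh
    simp at hh
    rcases lt_or_gt_of_ne hh.2 with hw | hw
    · have := sign_eq_one_iff.mp (hq u u' w' w hw hh.1); linarith
    · have := sign_eq_neg_one_iff.mp (hp u' u w' w hw hh.1); linarith
  · refine ⟨false, false, ?_⟩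
    intro u u' w w' hh
    simp only [R] at hh
    simp at hh
    rcases lt_or_gt_of_ne hh.2 with hw | hw
    · have := sign_eq_neg_one_iff.mp (hq u' u w w' hh.1 hw); linarith
    · have := sign_eq_neg_one_iff.mp (hp u' u w' w hh.1 hw); linarith

/-- If `g` beats `f + 1` in direction `(d1, d2)` while `|f - g| ≤ 1`, then both functions
have the same leading index and both increase in that direction. -/
theorem block_pos {f g : Fin 4 → Fin 4 → ℝ} {d1 d2 : Bool}
    (own : ∀ u w, |f u w - g u w| ≤ 1)
    (hf : Hom f) (hg : Hom g)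
    (blk : ∀ u u' w w' : Fin 4, R d1 u u' → R d2 w w' → f u w + 1 < g u' w') :
    ∃ l : Bool, Lead f l (if l = true then d2 else d1) ∧
      Lead g l (if l = true then d2 else d1) := by
  have sf : ∀ u u' w w' : Fin 4, R d1 u u' → R d2 w w' → f u w < f u' w' := by
    intro u u' w w' h1 h2
    have a := blk u u' w w' h1 h2
    have b := (abs_le.mp (own u' w')).1
    linarith
  have sg : ∀ u u' w w' : Fin 4, R d1 u u' → R d2 w w' → g u w < g u' w' := by
    intro u u' w w' h1 h2
    have a := blk u u' w w' h1 h2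
    have b := (abs_le.mp (own u w)).1
    linarith
  obtain ⟨l, e, hlf⟩ := hom_lead hf sf
  obtain ⟨l', e', hlg⟩ := hom_lead hg sg
  -- three indices in increasing order for each direction
  obtain ⟨u0, u1, u2, hu01, hu12, hu02⟩ : ∃ u0 u1 u2 : Fin 4, R d1 u0 u1 ∧ R d1 u1 u2 ∧
      R d1 u0 u2 := by
    cases d1
    · exact ⟨2, 1, 0, by simp [R], by simp [R], by simp [R]⟩
    · exact ⟨0, 1, 2, by simp [R], by simp [R], by simp [R]⟩
  obtain ⟨w0, w1, w2, hw01, hw12, hw02⟩ : ∃ w0 w1 w2 : Fin 4, R d2 w0 w1 ∧ R d2 w1 w2 ∧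
      R d2 w0 w2 := by
    cases d2
    · exact ⟨2, 1, 0, by simp [R], by simp [R], by simp [R]⟩
    · exact ⟨0, 1, 2, by simp [R], by simp [R], by simp [R]⟩
  -- a leading direction that agrees with an increase is the given one
  have fix : ∀ (h : Fin 4 → Fin 4 → ℝ) (l e : Bool), Lead h l e →
      (∀ u u' w w' : Fin 4, R d1 u u' → R d2 w w' → h u w < h u' w') →
      e = (if l = true then d2 else d1) := by
    intro h l e hl hs
    by_contra hne
    cases l
    · simp only [Bool.false_eq_true, if_false] at hne ⊢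
      have he : e = !d1 := by cases e <;> cases d1 <;> simp_all
      subst he
      have a := hs u0 u1 w0 w1 hu01 hw01
      have b := hl u1 u0 w1 w0
      simp only [Bool.false_eq_true, if_false, R_not] at b
      have := b ⟨hu01, (R_ne hw01).symm⟩
      linarith
    · simp only [if_true] at hne ⊢
      have he : e = !d2 := by cases e <;> cases d2 <;> simp_all
      subst he
      have a := hs u0 u1 w0 w1 hu01 hw01
      have b := hl u1 u0 w1 w0
      simp only [if_true, R_not] at b
      have := b ⟨hw01, (R_ne hu01).symm⟩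
      linarith
  have hef := fix f l e hlf sf
  have heg := fix g l' e' hlg sg
  subst hef
  subst heg
  have hll : l = l' := by
    by_contra hne
    cases l <;> cases l'
    · exact hne rfl
    · -- f leads by the first index, g by the second
      simp only [Bool.false_eq_true, if_false] at hlf
      simp only [if_true] at hlg
      have a := hlf u0 u1 w2 w0
      simp only [Bool.false_eq_true, if_false] at a
      have a' := a ⟨hu01, (R_ne hw02).symm⟩
      have b := hlg u2 u0 w1 w2
      simp only [if_true] at b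
      have b' := b ⟨hw12, (R_ne hu02).symm⟩
      have c := blk u1 u2 w0 w1 hu12 hw01
      have d := (abs_le.mp (own u0 w2)).1
      linarith
    · simp only [Bool.false_eq_true, if_false] at hlg
      simp only [if_true] at hlf
      have a := hlf u2 u0 w0 w1
      simp only [if_true] at a
      have a' := a ⟨hw01, (R_ne hu02).symm⟩
      have b := hlg u1 u2 w2 w0
      simp only [Bool.false_eq_true, if_false] at b
      have b' := b ⟨hu12, (R_ne hw02).symm⟩
      have c := blk u0 u1 w1 w2 hu01 hw12
      have d := (abs_le.mp (own u2 w0)).1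
      linarith
    · exact hne rfl
  subst hll
  exact ⟨l, hlf, hlg⟩

theorem hom_neg {h : Fin 4 → Fin 4 → ℝ} (hh : Hom h) : Hom (fun u w => - h u w) := by
  obtain ⟨⟨p, hp⟩, ⟨q, hq⟩⟩ := hh
  refine ⟨⟨-p, fun u u' w w' hu hw => ?_⟩, ⟨-q, fun u u' w w' hu hw => ?_⟩⟩
  · rw [← hp u u' w w' hu hw, ← Left.sign_neg]
    congr 1
    ring
  · rw [← hq u u' w w' hu hw, ← Left.sign_neg]
    congr 1
    ring

theorem block_neg {f g : Fin 4 → Fin 4 → ℝ} {d1 d2 : Bool}
    (own : ∀ u w, |f u w - g u w| ≤ 1)
    (hf : Hom f) (hg : Hom g)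
    (blk : ∀ u u' w w' : Fin 4, R d1 u u' → R d2 w w' → g u' w' < f u w - 1) :
    ∃ l : Bool, Lead f l (!(if l = true then d2 else d1)) ∧
      Lead g l (!(if l = true then d2 else d1)) := by
  obtain ⟨l, h1, h2⟩ := block_pos (f := fun u w => - f u w) (g := fun u w => - g u w)
    (d1 := d1) (d2 := d2) (fun u w => by
      rw [← abs_neg]
      have := own u w
      rw [show -(-f u w - -g u w) = f u w - g u w by ring]
      exact this) (hom_neg hf) (hom_neg hg)
    (fun u u' w w' h1 h2 => by
      have := blk u u' w w' h1 h2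
      linarith)
  refine ⟨l, ?_, ?_⟩
  · have := lead_neg h1
    simpa using this
  · have := lead_neg h2
    simpa using this

/-- One step of the walks: two different coordinates have the same leading index, before and
after the step. -/
theorem step (f g : Fin 3 → Fin 4 → Fin 4 → ℝ)
    (own : ∀ c u w, |f c u w - g c u w| ≤ 1)
    (cf : ∀ c u w u' w', |f c u w - f c u' w'| < 1 / 2)
    (cg : ∀ c u w u' w', |g c u w - g c u' w'| < 1 / 2)
    (hf : ∀ c, Hom (f c)) (hg : ∀ c, Hom (g c))
    (C : Bool → Bool → Fin 3) (S : Bool → Bool → Bool)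
    (blk : ∀ d1 d2, ∀ u u' w w' : Fin 4, R d1 u u' → R d2 w w' →
      if S d1 d2 = true then f (C d1 d2) u w + 1 < g (C d1 d2) u' w'
      else g (C d1 d2) u' w' < f (C d1 d2) u w - 1) :
    ∃ l : Bool, ∃ c c' : Fin 3, c ≠ c' ∧ (∃ e, Lead (f c) l e) ∧ (∃ e, Lead (g c) l e) ∧
      (∃ e, Lead (f c') l e) ∧ (∃ e, Lead (g c') l e) := by
  have main : ∀ d1 d2, ∃ l : Bool,
      Lead (f (C d1 d2)) l (if S d1 d2 = true then (if l = true then d2 else d1)
        else !(if l = true then d2 else d1)) ∧
      Lead (g (C d1 d2)) l (if S d1 d2 = true then (if l = true then d2 else d1)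
        else !(if l = true then d2 else d1)) := by
    intro d1 d2
    have hb := blk d1 d2
    by_cases hS : S d1 d2 = true
    · simp only [hS, if_true] at hb ⊢
      exact block_pos (own _) (hf _) (hg _) hb
    · simp only [hS] at hb ⊢
      exact block_neg (own _) (hf _) (hg _) hb
  choose lam hlf hlg using main
  by_contra hcon
  push Not at hcon
  have hsame : ∀ d1 d2 d1' d2', lam d1 d2 = lam d1' d2' → C d1 d2 = C d1' d2' := by
    intro d1 d2 d1' d2' hl
    by_contra hne
    exact hcon (lam d1 d2) (C d1 d2) (C d1' d2') hne ⟨_, hlf d1 d2⟩ ⟨_, hlg d1 d2⟩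
      ⟨_, by rw [hl]; exact hlf d1' d2'⟩ _ (by rw [hl]; exact hlg d1' d2')
  have hside : ∀ d1 d2 d1' d2', C d1 d2 = C d1' d2' → S d1 d2 = S d1' d2' := by
    intro d1 d2 d1' d2' hC
    by_contra hne
    -- one of the sides is positive and the other negative
    have aux : ∀ a1 a2 b1 b2, C a1 a2 = C b1 b2 → S a1 a2 = true → S b1 b2 = false →
        False := by
      intro a1 a2 b1 b2 hC h1 h2
      obtain ⟨u, u', hu⟩ : ∃ u u' : Fin 4, R a1 u u' := by
        cases a1
        · exact ⟨1, 0, by simp [R]⟩
        · exact ⟨0, 1, by simp [R]⟩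
      obtain ⟨w, w', hw⟩ : ∃ u u' : Fin 4, R a2 u u' := by
        cases a2
        · exact ⟨1, 0, by simp [R]⟩
        · exact ⟨0, 1, by simp [R]⟩
      obtain ⟨x, x', hx⟩ : ∃ u u' : Fin 4, R b1 u u' := by
        cases b1
        · exact ⟨1, 0, by simp [R]⟩
        · exact ⟨0, 1, by simp [R]⟩
      obtain ⟨z, z', hz⟩ : ∃ u u' : Fin 4, R b2 u u' := by
        cases b2
        · exact ⟨1, 0, by simp [R]⟩
        · exact ⟨0, 1, by simp [R]⟩
      have p1 := blk a1 a2 u u' w w' hu hw
      have p2 := blk b1 b2 x x' z z' hx hz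
      simp only [h1, if_true] at p1
      simp only [h2, Bool.false_eq_true, if_false] at p2
      rw [hC] at p1
      have q1 := (abs_lt.mp (cf (C b1 b2) u w x z)).1
      have q2 := (abs_lt.mp (cg (C b1 b2) u' w' x' z')).2
      linarith
    cases h1 : S d1 d2 <;> cases h2 : S d1' d2'
    · exact hne (by rw [h1, h2])
    · exact aux d1' d2' d1 d2 hC.symm h2 h1
    · exact aux d1 d2 d1' d2' hC h1 h2
    · exact hne (by rw [h1, h2])
  have hdir : ∀ d1 d2 d1' d2', lam d1 d2 = lam d1' d2' →
      (if lam d1 d2 = true then d2 else d1) = (if lam d1' d2' = true then d2' else d1') := by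
    intro d1 d2 d1' d2' hl
    have hC := hsame d1 d2 d1' d2' hl
    have hS := hside d1 d2 d1' d2' hC
    have a := hlf d1 d2
    have b := hlf d1' d2'
    rw [hC] at a
    have := (lead_unique a b).2
    rw [hS] at this
    by_cases hS' : S d1' d2' = true
    · simpa only [hS', if_true] using this
    · simp only [hS', Bool.false_eq_true, if_false] at this
      exact Bool.not_inj this
  have fin : ∀ L : Bool → Bool → Bool, ¬ ∀ d1 d2 d1' d2', L d1 d2 = L d1' d2' →
      (if L d1 d2 = true then d2 else d1) = (if L d1' d2' = true then d2' else d1') := by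
    decide
  exact fin lam hdir

/-! ### Walks in the intersection graph -/

theorem cube_inter (a b : Fin 3 → ℝ) :
    (cube a ∩ cube b).Nonempty ↔ ∀ c, |a c - b c| ≤ 1 := by
  constructor
  · rintro ⟨x, ⟨h1, h2⟩, ⟨h3, h4⟩⟩ c
    have a1 := h1 c
    have a2 := h2 c
    have a3 := h3 c
    have a4 := h4 c
    simp only at a2 a4
    rw [abs_le]
    constructor <;> linarith
  · intro h
    refine ⟨fun c => max (a c) (b c), ⟨fun c => le_max_left _ _, fun c => ?_⟩,
      ⟨fun c => le_max_right _ _, fun c => ?_⟩⟩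
    · have := abs_le.mp (h c)
      apply max_le <;> linarith [this.1, this.2]
    · have := abs_le.mp (h c)
      apply max_le <;> linarith [this.1, this.2]

theorem seq_of_edist {V : Type*} (p : V → Fin 3 → ℝ) {x y : V} {r : ℕ}
    (h : (cubeGraph p).edist x y ≤ (r : ℕ∞)) :
    ∃ P : ℕ → V, P 0 = x ∧ P r = y ∧ ∀ j < r, ∀ c, |p (P j) c - p (P (j + 1)) c| ≤ 1 := by
  have hne : (cubeGraph p).edist x y ≠ ⊤ := ne_top_of_le_ne_top (ENat.natCast_ne_top r) h
  obtain ⟨w, hw⟩ := SimpleGraph.exists_walk_of_edist_ne_top hne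
  have hlen : w.length ≤ r := by
    rw [← hw] at h
    exact_mod_cast h
  refine ⟨w.getVert, w.getVert_zero, w.getVert_of_length_le hlen, fun j hj c => ?_⟩
  by_cases hj' : j < w.length
  · exact (cube_inter _ _).mp (w.adj_getVert_succ hj').2 c
  · rw [w.getVert_of_length_le (by omega), w.getVert_of_length_le (by omega)]
    simp

theorem edist_of_seq {V : Type*} (p : V → Fin 3 → ℝ) (P : ℕ → V) (r : ℕ)
    (h : ∀ j < r, ∀ c, |p (P j) c - p (P (j + 1)) c| ≤ 1) :
    (cubeGraph p).edist (P 0) (P r) ≤ (r : ℕ∞) := by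
  induction r with
  | zero => simp
  | succ r ih =>
    have h1 := ih (fun j hj => h j (by omega))
    have h2 : (cubeGraph p).edist (P r) (P (r + 1)) ≤ 1 := by
      by_cases he : P r = P (r + 1)
      · rw [he]; simp
      · have hadj : (cubeGraph p).Adj (P r) (P (r + 1)) :=
          ⟨he, (cube_inter _ _).mpr (h r (by omega))⟩
        have := SimpleGraph.edist_le hadj.toWalk
        simpa using this
    calc (cubeGraph p).edist (P 0) (P (r + 1))
        ≤ (cubeGraph p).edist (P 0) (P r) + (cubeGraph p).edist (P r) (P (r + 1)) :=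
          SimpleGraph.edist_triangle
      _ ≤ (r : ℕ∞) + 1 := add_le_add h1 h2
      _ = ((r + 1 : ℕ) : ℕ∞) := by push_cast; rfl

theorem seq_dist {V : Type*} (p : V → Fin 3 → ℝ) (P : ℕ → V) (r : ℕ)
    (h : ∀ j < r, ∀ c, |p (P j) c - p (P (j + 1)) c| ≤ 1) (c : Fin 3) :
    ∀ j ≤ r, |p (P j) c - p (P 0) c| ≤ j := by
  intro j
  induction j with
  | zero => intro _; simp
  | succ j ih =>
    intro hj
    have h1 := abs_le.mp (ih (by omega))
    have h2 := abs_le.mp (h j (by omega) c)
    rw [abs_le]
    push_cast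
    constructor <;> linarith [h1.1, h1.2, h2.1, h2.2]

/-- Rounding into finitely many boxes. -/
noncomputable def fl (r : ℕ) (z : ℝ) : Fin (16 * r + 1) :=
  ⟨min ⌊z⌋₊ (16 * r), by omega⟩

theorem fl_close {r : ℕ} {z z' : ℝ} (h0 : 0 ≤ z) (h1 : z ≤ 16 * r) (h0' : 0 ≤ z')
    (h1' : z' ≤ 16 * r) (h : fl r z = fl r z') : |z - z'| < 1 := by
  have e1 : ⌊z⌋₊ ≤ 16 * r := by
    have := Nat.floor_le_floor h1
    have e : ⌊(16 * (r : ℝ))⌋₊ = 16 * r := by
      rw [show (16 * (r : ℝ)) = ((16 * r : ℕ) : ℝ) by push_cast; ring]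
      exact Nat.floor_natCast _
    omega
  have e2 : ⌊z'⌋₊ ≤ 16 * r := by
    have := Nat.floor_le_floor h1'
    have e : ⌊(16 * (r : ℝ))⌋₊ = 16 * r := by
      rw [show (16 * (r : ℝ)) = ((16 * r : ℕ) : ℝ) by push_cast; ring]
      exact Nat.floor_natCast _
    omega
  have h2 := congrArg Fin.val h
  simp only [fl] at h2
  rw [min_eq_left e1, min_eq_left e2] at h2
  have a1 := Nat.floor_le h0
  have a2 := Nat.lt_floor_add_one z
  have b1 := Nat.floor_le h0'
  have b2 := Nat.lt_floor_add_one z'
  rw [h2] at a1 a2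
  rw [abs_lt]
  constructor <;> linarith

/-- The finite set of colours. -/
abbrev Col (r : ℕ) : Type :=
  (Bool → Fin (r + 1) → Fin 3 → SignType × SignType) ×
    (Bool → Fin r → Bool → Bool → Fin 3 × Bool) ×
    (Bool → Fin (r + 1) → Fin 3 → Fin (16 * r + 1))

noncomputable instance colFintype (r : ℕ) : Fintype (Col r) :=
  @instFintypeProd _ _ (inferInstanceAs (Fintype (Bool → Fin (r + 1) → Fin 3 →
      SignType × SignType)))
    (@instFintypeProd _ _ (inferInstanceAs (Fintype (Bool → Fin r → Bool → Bool →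
      Fin 3 × Bool))) (inferInstanceAs (Fintype (Bool → Fin (r + 1) → Fin 3 →
      Fin (16 * r + 1)))))

theorem R_pair {d : Bool} {v v' : Fin 4} (h : R d v v') :
    ∃ a a' : Fin 4, a < a' ∧ (if d = true then a else a') = v ∧
      (if d = true then a' else a) = v' := by
  cases d
  · exact ⟨v', v, by simpa [R] using h, rfl, rfl⟩
  · exact ⟨v, v', by simpa [R] using h, rfl, rfl⟩

/-- The combinatorial heart: the functions coming from walks cannot exist on a large grid. -/
theorem core (r : ℕ) (hr : 0 < r) : ∃ N : ℕ, ∀ (F : Bool → ℕ → Fin 3 → ℕ → ℕ → ℝ)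
    (b : Fin 3 → ℝ),
    (∀ c u w, u < N → w < N → F false 0 c u w = F true 0 c u w) →
    (∀ c u w w', u < N → w < N → w' < N → F false r c u w = F false r c u w') →
    (∀ c u u' w, u < N → u' < N → w < N → F true r c u w = F true r c u' w) →
    (∀ s, ∀ j < r, ∀ c u w, u < N → w < N → |F s j c u w - F s (j + 1) c u w| ≤ 1) →
    (∀ s, ∀ j < r, ∀ u u' w w', u < N → u' < N → w < N → w' < N → u ≠ u' → w ≠ w' →
      ∃ c, 1 < |F s j c u w - F s (j + 1) c u' w'|) →
    (∀ s, ∀ j ≤ r, ∀ c u w, u < N → w < N → |F s j c u w - b c| ≤ 4 * r) → False := by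
  classical
  obtain ⟨N, hN⟩ := ramseyProd (Col r) 5
  refine ⟨N, fun F b hstart hendu hendw hown hblk hbd => ?_⟩
  -- the blocking coordinate and side
  have hB : ∀ (s : Bool) (j : ℕ) (u u' w w' : ℕ), ∃ cs : Fin 3 × Bool,
      j < r → u < N → u' < N → w < N → w' < N → u ≠ u' → w ≠ w' →
      (if cs.2 = true then F s j cs.1 u w + 1 < F s (j + 1) cs.1 u' w'
        else F s (j + 1) cs.1 u' w' < F s j cs.1 u w - 1) := by
    intro s j u u' w w'
    by_cases h : j < r ∧ u < N ∧ u' < N ∧ w < N ∧ w' < N ∧ u ≠ u' ∧ w ≠ w'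
    · obtain ⟨h1, h2, h3, h4, h5, h6, h7⟩ := h
      obtain ⟨c, hc⟩ := hblk s j h1 u u' w w' h2 h3 h4 h5 h6 h7
      rcases lt_abs.mp hc with hc | hc
      · refine ⟨(c, false), fun _ _ _ _ _ _ _ => ?_⟩
        simp only [Bool.false_eq_true, if_false]
        linarith
      · refine ⟨(c, true), fun _ _ _ _ _ _ _ => ?_⟩
        simp only [if_true]
        linarith
    · refine ⟨(0, true), fun h1 h2 h3 h4 h5 h6 h7 => ?_⟩
      exact absurd ⟨h1, h2, h3, h4, h5, h6, h7⟩ h
  choose B hB using hB
  obtain ⟨α, β, hα, hβ, hαN, hβN, κ, hκ⟩ := hN (fun u u' w w' =>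
    (fun s j c => (SignType.sign (F s j c u' w' - F s j c u w),
        SignType.sign (F s j c u' w - F s j c u w')),
      fun s j d1 d2 => B s j (if d1 = true then u else u') (if d1 = true then u' else u)
        (if d2 = true then w else w') (if d2 = true then w' else w),
      fun s j c => fl r (2 * (F s j c u w - b c + 4 * r))))
  -- the functions on the small grid
  set H : Bool → ℕ → Fin 3 → Fin 4 → Fin 4 → ℝ :=
    fun s j c u w => F s j c (α u.castSucc) (β w.castSucc) with hH
  have hHom : ∀ s, ∀ j ≤ r, ∀ c, Hom (H s j c) := by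
    intro s j hj c
    have hj' : j < r + 1 := by omega
    refine ⟨⟨(κ.1 s ⟨j, hj'⟩ c).1, fun u u' w w' hu hw => ?_⟩,
      ⟨(κ.1 s ⟨j, hj'⟩ c).2, fun u u' w w' hu hw => ?_⟩⟩
    · have := hκ u.castSucc u'.castSucc w.castSucc w'.castSucc
        (Fin.castSucc_lt_castSucc_iff.mpr hu) (Fin.castSucc_lt_castSucc_iff.mpr hw)
      rw [← this]
    · have := hκ u.castSucc u'.castSucc w.castSucc w'.castSucc
        (Fin.castSucc_lt_castSucc_iff.mpr hu) (Fin.castSucc_lt_castSucc_iff.mpr hw)
      rw [← this]
  have hClose : ∀ s, ∀ j ≤ r, ∀ c u w u' w', |H s j c u w - H s j c u' w'| < 1 / 2 := by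
    intro s j hj c u w u' w'
    have hj' : j < r + 1 := by omega
    have key : ∀ u w : Fin 4, fl r (2 * (H s j c u w - b c + 4 * r)) =
        κ.2.2 s ⟨j, hj'⟩ c := by
      intro u w
      have := hκ u.castSucc (Fin.last 4) w.castSucc (Fin.last 4)
        (Fin.castSucc_lt_last _) (Fin.castSucc_lt_last _)
      rw [← this]
    have range : ∀ u w : Fin 4, 0 ≤ 2 * (H s j c u w - b c + 4 * r) ∧
        2 * (H s j c u w - b c + 4 * r) ≤ 16 * r := by
      intro u w
      have := abs_le.mp (hbd s j hj c (α u.castSucc) (β w.castSucc) (hαN _) (hβN _))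
      constructor
      · simp only [hH]; linarith [this.1]
      · simp only [hH]; linarith [this.2]
    have := fl_close (range u w).1 (range u w).2 (range u' w').1 (range u' w').2
      ((key u w).trans (key u' w').symm)
    rw [abs_lt] at this ⊢
    constructor <;> linarith [this.1, this.2]
  have hstep : ∀ s, ∀ j < r, ∃ l : Bool, ∃ c c' : Fin 3, c ≠ c' ∧
      (∃ e, Lead (H s j c) l e) ∧ (∃ e, Lead (H s (j + 1) c) l e) ∧
      (∃ e, Lead (H s j c') l e) ∧ (∃ e, Lead (H s (j + 1) c') l e) := by
    intro s j hj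
    apply step (H s j) (H s (j + 1))
      (fun c u w => hown s j hj c _ _ (hαN _) (hβN _))
      (fun c u w u' w' => hClose s j (by omega) c u w u' w')
      (fun c u w u' w' => hClose s (j + 1) (by omega) c u w u' w')
      (fun c => hHom s j (by omega) c) (fun c => hHom s (j + 1) (by omega) c)
      (fun d1 d2 => (κ.2.1 s ⟨j, hj⟩ d1 d2).1) (fun d1 d2 => (κ.2.1 s ⟨j, hj⟩ d1 d2).2)
    intro d1 d2 v v' z z' hv hz
    obtain ⟨a, a', haa, ha, ha'⟩ := R_pair hv
    obtain ⟨e, e', hee, he, he'⟩ := R_pair hz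
    have h1 := hκ a.castSucc a'.castSucc e.castSucc e'.castSucc
        (Fin.castSucc_lt_castSucc_iff.mpr haa) (Fin.castSucc_lt_castSucc_iff.mpr hee)
    have h2 : κ.2.1 s ⟨j, hj⟩ d1 d2 = B s j (α v.castSucc) (α v'.castSucc)
        (β z.castSucc) (β z'.castSucc) := by
      rw [← h1, ← ha, ← ha', ← he, ← he']
      simp only
      cases d1 <;> cases d2 <;> rfl
    have h3 := hB s j (α v.castSucc) (α v'.castSucc) (β z.castSucc) (β z'.castSucc) hj
      (hαN _) (hαN _) (hβN _) (hβN _)
      (fun h => R_ne hv (Fin.castSucc_injective _ (hα.injective h)))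
      (fun h => R_ne hz (Fin.castSucc_injective _ (hβ.injective h)))
    simp only [h2]
    exact h3
  choose! lam c1 c2 hne h1 h2 h3 h4 using hstep
  -- two pairs of coordinates meet
  have meet : ∀ a b c d : Fin 3, a ≠ b → c ≠ d → a = c ∨ a = d ∨ b = c ∨ b = d := by
    decide
  have same : ∀ (G : Fin 3 → Fin 4 → Fin 4 → ℝ) (l l' : Bool) (a b c d : Fin 3), a ≠ b →
      c ≠ d → (∃ e, Lead (G a) l e) → (∃ e, Lead (G b) l e) → (∃ e, Lead (G c) l' e) →
      (∃ e, Lead (G d) l' e) → l = l' := by
    rintro G l l' a b c d hab hcd ⟨e1, k1⟩ ⟨e2, k2⟩ ⟨e3, k3⟩ ⟨e4, k4⟩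
    rcases meet a b c d hab hcd with h | h | h | h
    · subst h; exact (lead_unique k1 k3).1
    · subst h; exact (lead_unique k1 k4).1
    · subst h; exact (lead_unique k2 k3).1
    · subst h; exact (lead_unique k2 k4).1
  have hconst : ∀ s, ∀ j < r, lam s j = lam s 0 := by
    intro s j
    induction j with
    | zero => intro _; rfl
    | succ j ih =>
      intro hj
      rw [← ih (by omega)]
      exact same (H s (j + 1)) _ _ _ _ _ _ (hne s (j + 1) hj) (hne s j (by omega))
        (h1 s (j + 1) hj) (h3 s (j + 1) hj) (h2 s j (by omega)) (h4 s j (by omega))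
  -- at the end of the walks
  have hendF : lam false (r - 1) = false := by
    obtain ⟨e, he⟩ := h2 false (r - 1) (by omega)
    rw [show r - 1 + 1 = r by omega] at he
    by_contra hl
    have hl' : lam false (r - 1) = true := by simpa using hl
    rw [hl'] at he
    have flat : ∀ u w w', H false r (c1 false (r - 1)) u w =
        H false r (c1 false (r - 1)) u w' :=
      fun u w w' => hendu _ _ _ _ (hαN _) (hβN _) (hβN _)
    have a1 := he 0 1 0 1
    have a2 := he 1 0 0 1
    have a3 := he 0 1 1 0
    have a4 := he 1 0 1 0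
    have f0 := flat 0 0 1
    have f1 := flat 1 0 1
    cases e <;> simp [R] at a1 a2 a3 a4 <;> linarith
  have hendT : lam true (r - 1) = true := by
    obtain ⟨e, he⟩ := h2 true (r - 1) (by omega)
    rw [show r - 1 + 1 = r by omega] at he
    by_contra hl
    have hl' : lam true (r - 1) = false := by simpa using hl
    rw [hl'] at he
    have flat : ∀ u u' w, H true r (c1 true (r - 1)) u w =
        H true r (c1 true (r - 1)) u' w :=
      fun u u' w => hendw _ _ _ _ (hαN _) (hαN _) (hβN _)
    have a1 := he 0 1 0 1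
    have a2 := he 1 0 0 1
    have a3 := he 0 1 1 0
    have a4 := he 1 0 1 0
    have f0 := flat 0 1 0
    have f1 := flat 0 1 1
    cases e <;> simp [R] at a1 a2 a3 a4 <;> linarith
  -- at the start of the walks
  have hzero : H false 0 = H true 0 := by
    funext c u w
    exact hstart c _ _ (hαN _) (hβN _)
  have hfin : lam false 0 = lam true 0 := by
    refine same (H true 0) _ _ _ _ _ _ (hne false 0 hr) (hne true 0 hr) ?_ ?_
      (h1 true 0 hr) (h3 true 0 hr)
    · rw [← hzero]; exact h1 false 0 hr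
    · rw [← hzero]; exact h3 false 0 hr
  rw [← hconst false (r - 1) (by omega), ← hconst true (r - 1) (by omega), hendF, hendT]
    at hfin
  exact Bool.false_ne_true hfin

/-! ### Balls with prescribed traces -/

theorem no_large_pairs (r : ℕ) : ∃ N : ℕ, ∀ {V : Type*} (p : V → Fin 3 → ℝ) (y : ℕ → V),
    (∀ i < 2 * N, ∀ j < 2 * N, y i = y j → i = j) →
    (∀ i < 2 * N, ∀ j < 2 * N, ∃ x, ∀ k < 2 * N,
      ((cubeGraph p).edist x (y k) ≤ (r : ℕ∞) ↔ (k = i ∨ k = j))) → False := by
  rcases Nat.eq_zero_or_pos r with hr | hr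
  · refine ⟨1, fun {V} p y hinj h => ?_⟩
    subst hr
    obtain ⟨x, hx⟩ := h 0 (by omega) 1 (by omega)
    have h0 := (hx 0 (by omega)).mpr (Or.inl rfl)
    have h1 := (hx 1 (by omega)).mpr (Or.inr rfl)
    have e0 : x = y 0 := by
      rw [← SimpleGraph.edist_eq_zero_iff (G := cubeGraph p)]
      exact le_antisymm (by simpa using h0) (by simp)
    have e1 : x = y 1 := by
      rw [← SimpleGraph.edist_eq_zero_iff (G := cubeGraph p)]
      exact le_antisymm (by simpa using h1) (by simp)
    exact absurd (hinj 0 (by omega) 1 (by omega) (e0.symm.trans e1)) (by omega)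
  · obtain ⟨N, hN⟩ := core r hr
    refine ⟨N, fun {V} p y hinj h => ?_⟩
    have hx : ∀ u w : ℕ, ∃ x, u < N → w < N → ∀ k < 2 * N,
        ((cubeGraph p).edist x (y k) ≤ (r : ℕ∞) ↔ (k = u ∨ k = N + w)) := by
      intro u w
      by_cases hu : u < N ∧ w < N
      · obtain ⟨x, hx⟩ := h u (by omega) (N + w) (by omega)
        exact ⟨x, fun _ _ => hx⟩
      · exact ⟨y 0, fun h1 h2 => absurd ⟨h1, h2⟩ hu⟩
    choose x hx using hx
    have hP : ∀ (s : Bool) (u w : ℕ), ∃ P : ℕ → V, u < N → w < N →
        P 0 = x u w ∧ P r = y (if s = true then N + w else u) ∧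
        ∀ j < r, ∀ c, |p (P j) c - p (P (j + 1)) c| ≤ 1 := by
      intro s u w
      by_cases hu : u < N ∧ w < N
      · have hk : (if s = true then N + w else u) < 2 * N := by
          cases s
          · simp only [Bool.false_eq_true, if_false]; omega
          · simp only [if_true]; omega
        have := (hx u w hu.1 hu.2 _ hk).mpr (by
          cases s
          · left; rfl
          · right; rfl)
        obtain ⟨P, h1, h2, h3⟩ := seq_of_edist p this
        exact ⟨P, fun _ _ => ⟨h1, h2, h3⟩⟩
      · exact ⟨fun _ => y 0, fun h1 h2 => absurd ⟨h1, h2⟩ hu⟩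
    choose P hP using hP
    refine hN (fun s j c u w => p (P s u w j) c) (fun c => p (y 0) c) ?_ ?_ ?_ ?_ ?_ ?_
    · intro c u w hu hw
      simp only [(hP false u w hu hw).1, (hP true u w hu hw).1]
    · intro c u w w' hu hw hw'
      simp only [(hP false u w hu hw).2.1, (hP false u w' hu hw').2.1]
      simp
    · intro c u u' w hu hu' hw
      simp only [(hP true u w hu hw).2.1, (hP true u' w hu' hw).2.1]
      simp
    · intro s j hj c u w hu hw
      exact (hP s u w hu hw).2.2 j hj c
    · intro s j hj u u' w w' hu hu' hw hw' hne hne'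
      by_contra hcon
      push Not at hcon
      -- a walk that changes from one track to the other
      have hw1 := edist_of_seq p (fun i => if i ≤ j then P s u w i else P s u' w' i) r (by
        intro i hi c
        by_cases h1 : i + 1 ≤ j
        · simp only [h1, if_true, show i ≤ j by omega]
          exact (hP s u w hu hw).2.2 i hi c
        · by_cases h2 : i ≤ j
          · have : i = j := by omega
            subst this
            simp only [le_refl, if_true, h1, if_false]
            exact hcon c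
          · simp only [h1, h2, if_false]
            exact (hP s u' w' hu' hw').2.2 i hi c)
      simp only [Nat.zero_le, if_true, show ¬ (r ≤ j) by omega, if_false] at hw1
      rw [(hP s u w hu hw).1, (hP s u' w' hu' hw').2.1] at hw1
      have hk : (if s = true then N + w' else u') < 2 * N := by
        cases s
        · simp only [Bool.false_eq_true, if_false]; omega
        · simp only [if_true]; omega
      have := (hx u w hu hw _ hk).mp hw1
      cases s
      · simp only [Bool.false_eq_true, if_false] at this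
        omega
      · simp only [if_true] at this
        omega
    · intro s j hj c u w hu hw
      have hN0 : 0 < N := by omega
      -- distance from the start to the two ends
      have hend : ∀ (t : Bool) (u w : ℕ), u < N → w < N →
          |p (y (if t = true then N + w else u)) c - p (x u w) c| ≤ r := by
        intro t u w hu hw
        have := seq_dist p (P t u w) r (hP t u w hu hw).2.2 c r le_rfl
        rwa [(hP t u w hu hw).1, (hP t u w hu hw).2.1] at this
      have a1 := seq_dist p (P s u w) r (hP s u w hu hw).2.2 c j hj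
      rw [(hP s u w hu hw).1] at a1
      have a2 := hend true u w hu hw
      have a3 := hend true 0 w hN0 hw
      have a4 := hend false 0 w hN0 hw
      simp only [if_true, Bool.false_eq_true, if_false] at a2 a3 a4
      have hjr : (j : ℝ) ≤ r := by exact_mod_cast hj
      rw [abs_le] at *
      constructor <;> linarith [a1.1, a1.2, a2.1, a2.2, a3.1, a3.2, a4.1, a4.2]

theorem bound (r : ℕ) : ∃ N : ℕ, ∀ {V : Type*} [Fintype V] (p : V → Fin 3 → ℝ),
    vcBall (cubeGraph p) r ≤ N := by
  classical
  obtain ⟨N, hN⟩ := no_large_pairs r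
  refine ⟨2 * N, fun {V} _ p => ?_⟩
  by_contra hcon
  rw [not_le] at hcon
  unfold vcBall at hcon
  rw [Finset.vcDim, Finset.lt_sup_iff] at hcon
  obtain ⟨S, hS, hScard⟩ := hcon
  rw [Finset.mem_shatterer] at hS
  -- number the shattered set
  let e := S.equivFin.symm
  have hne : S.Nonempty := by rw [← Finset.card_pos]; omega
  obtain ⟨v0, hv0⟩ := hne
  set y : ℕ → V := fun i => if h : i < S.card then (e ⟨i, h⟩ : V) else v0 with hy
  have hyi : ∀ i (h : i < S.card), y i = (e ⟨i, h⟩ : V) := fun i h => by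
    simp only [hy, dif_pos h]
  have hyS : ∀ i, i < S.card → y i ∈ S := fun i h => by
    rw [hyi i h]; exact (e ⟨i, h⟩).2
  have hinj : ∀ i < 2 * N, ∀ j < 2 * N, y i = y j → i = j := by
    intro i hi j hj hij
    rw [hyi i (by omega), hyi j (by omega)] at hij
    have := e.injective (Subtype.ext hij)
    simpa using this
  refine hN p y hinj ?_
  intro i hi j hj
  have hsub : ({y i, y j} : Finset V) ⊆ S := by
    intro z hz
    rw [Finset.mem_insert, Finset.mem_singleton] at hz
    rcases hz with rfl | rfl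
    · exact hyS i (by omega)
    · exact hyS j (by omega)
  obtain ⟨B, hB, hBS⟩ := hS hsub
  rw [Finset.mem_image] at hB
  obtain ⟨x, -, rfl⟩ := hB
  refine ⟨x, fun k hk => ?_⟩
  have hmem : y k ∈ S ∩ ball (cubeGraph p) r x ↔ y k ∈ ({y i, y j} : Finset V) := by
    rw [hBS]
  rw [Finset.mem_inter, Finset.mem_insert, Finset.mem_singleton] at hmem
  have hb : y k ∈ ball (cubeGraph p) r x ↔ (cubeGraph p).edist x (y k) ≤ (r : ℕ∞) := by
    simp [ball]
  rw [hb] at hmem
  constructor
  · intro h
    rcases hmem.mp ⟨hyS k (by omega), h⟩ with h' | h'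
    · exact Or.inl (hinj k hk i hi h')
    · exact Or.inr (hinj k hk j hj h')
  · rintro (rfl | rfl)
    · exact (hmem.mpr (Or.inl rfl)).2
    · exact (hmem.mpr (Or.inr rfl)).2

/-- There is a function `f` such that for every radius `r` and every finite family of unit
cubes in `ℝ³`, the balls of radius `r` in the intersection graph have VC-dimension at most
`f r`. -/
theorem result : ∃ f : ℕ → ℕ, ∀ (r : ℕ) (V : Type*) [Fintype V] (p : V → Fin 3 → ℝ),
    vcBall (cubeGraph p) r ≤ f r := by
  choose f hf using bound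
  exact ⟨f, fun r V _ p => hf r p⟩

end Pool.Agent.Results.MP_75f2a2_co.AllRadii
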